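import Pool.Agent.Lib.MP_7d369a_lc.Cards

/-!
For every strictly increasing `f` which is eventually below some finite iterate of `n ↦ 2 ^ n`,
the additivity and the cofinality of the Yorioka ideal `I_f` equal those of `I_id`; and
`I_f = I_id` only when `f` is eventually bounded by a polynomial `n ^ k`.
-/

namespace Pool.Agent.Lib.MP_7d369a_lc.Shelf.ElementaryGrowthEquality

open Filter Pool.Agent.Lib.MP_7d369a_lc

theorem result (f : ℕ → ℕ) (hf : StrictMono f) :
    ((∃ k : ℕ, ∀ᶠ n in atTop, f n ≤ (fun m => 2 ^ m)^[k] n) →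
      addIdeal (Yorioka f) = addIdeal (Yorioka id) ∧
        cofIdeal (Yorioka f) = cofIdeal (Yorioka id)) ∧
    (Yorioka f = Yorioka id ↔ ∃ k : ℕ, ∀ᶠ n in atTop, f n ≤ n ^ k) :=
  ⟨fun ⟨_, hk⟩ => both_eq hf hk, eq_iff_poly hf⟩

end Pool.Agent.Lib.MP_7d369a_lc.Shelf.ElementaryGrowthEquality
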